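import Mathlib

/-!
# Doubly irreducible elements of irreducible posets

In a finite irreducible poset every doubly irreducible element is the first element of a critical
pair and the second element of a critical pair.
-/

set_option autoImplicit false

namespace Pool.Agent.Results.MP_ba261c_co.DoublyIrreducible

/-- `r` is (the relation `at most` of) a linear extension of the order of `P`. -/
structure IsLinExt (P : Type) [PartialOrder P] (r : P → P → Prop) : Prop where
  refl : ∀ x, r x x
  antisymm : ∀ x y, r x y → r y x → x = y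
  trans : ∀ x y z, r x y → r y z → r x z
  total : ∀ x y, r x y ∨ r y x
  extend : ∀ x y, x ≤ y → r x y

/-- The order of `P` is the intersection of `k` linear extensions of `P`. -/
def HasRealizer (P : Type) [PartialOrder P] (k : ℕ) : Prop :=
  ∃ L : Fin k → P → P → Prop, (∀ i, IsLinExt P (L i)) ∧ ∀ x y, (∀ i, L i x y) → x ≤ y

/-- The Dushnik-Miller dimension: the least number `k ≥ m` of linear extensions whose intersection
is the order. With `m = 1` families of linear extensions are nonempty, so that every chain, also the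
one-element chain, has dimension one; with `m = 0` the empty family is allowed, which makes a
difference only for posets with at most one element. -/
noncomputable def dim (m : ℕ) (P : Type) [PartialOrder P] : ℕ :=
  sInf {k | m ≤ k ∧ HasRealizer P k}

/-- `P` is irreducible: deleting any single element lowers the dimension. -/
def IsIrreducible (m : ℕ) (P : Type) [PartialOrder P] : Prop :=
  ∀ x : P, dim m {y : P // y ≠ x} < dim m P

/-- `a` is join-irreducible: it lies in every set (the empty set included) with join `a`. -/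
def JoinIrred {P : Type} [PartialOrder P] (a : P) : Prop := ∀ S : Set P, IsLUB S a → a ∈ S

/-- `a` is meet-irreducible: it lies in every set (the empty set included) with meet `a`. -/
def MeetIrred {P : Type} [PartialOrder P] (a : P) : Prop := ∀ S : Set P, IsGLB S a → a ∈ S

/-- `(a, b)` is a critical pair. -/
def Crit {P : Type} [PartialOrder P] (a b : P) : Prop :=
  ¬ a ≤ b ∧ ¬ b ≤ a ∧ (∀ c, a < c → b < c) ∧ ∀ c, c < b → c < a

/-- A realizer restricts to the poset with a deleted element. -/
lemma restrict {P : Type} [PartialOrder P] {k : ℕ} (h : HasRealizer P k) (u : P) :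
    HasRealizer {y : P // y ≠ u} k := by
  obtain ⟨L, h1, h2⟩ := h
  refine ⟨fun i x y => L i x.1 y.1, fun i => ?_, fun x y hxy => ?_⟩
  · exact ⟨fun x => (h1 i).refl _, fun x y a b => Subtype.ext ((h1 i).antisymm _ _ a b),
      fun x y z => (h1 i).trans _ _ _, fun x y => (h1 i).total _ _, fun x y hxy =>
        (h1 i).extend _ _ hxy⟩
  · exact h2 x.1 y.1 hxy

/-- If `u` has the unique upper cover `v` and `v` has the unique lower cover `u`, then every
nonempty realizer of the poset without `u` gives a realizer of the poset of the same size. -/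
lemma insert {P : Type} [PartialOrder P] {k : ℕ} {u v : P} (huv : u < v)
    (h1 : ∀ c, u < c → v ≤ c) (h2 : ∀ c, c < v → c ≤ u)
    (h : HasRealizer {y : P // y ≠ u} k) (hk : 0 < k) : HasRealizer P k := by
  classical
  obtain ⟨L, hL, hI⟩ := h
  have hvu : v ≠ u := ne_of_gt huv
  let f : P → {y : P // y ≠ u} := fun y => if hy : y = u then ⟨v, hvu⟩ else ⟨y, hy⟩
  have fu : f u = ⟨v, hvu⟩ := by simp [f]
  have fn : ∀ y, (hy : y ≠ u) → f y = ⟨y, hy⟩ := fun y hy => by simp [f, hy]
  have fle : ∀ x y, x ≤ y → f x ≤ f y := by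
    intro x y hxy
    by_cases hx : x = u
    · by_cases hy : y = u
      · rw [hx, hy]
      · subst hx
        rw [fu, fn y hy]
        exact h1 y (lt_of_le_of_ne hxy (Ne.symm hy))
    · by_cases hy : y = u
      · subst hy
        rw [fu, fn x hx]
        exact hxy.trans huv.le
      · rw [fn x hx, fn y hy]
        exact hxy
  have feq : ∀ x y, f x = f y → x = y ∨ (x = v ∧ y = u) ∨ (x = u ∧ y = v) := by
    intro x y hxy
    by_cases hx : x = u
    · by_cases hy : y = u
      · left; rw [hx, hy]
      · right; right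
        subst hx
        rw [fu, fn y hy] at hxy
        exact ⟨rfl, (Subtype.ext_iff.1 hxy).symm⟩
    · by_cases hy : y = u
      · right; left
        subst hy
        rw [fu, fn x hx] at hxy
        exact ⟨Subtype.ext_iff.1 hxy, rfl⟩
      · left
        rw [fn x hx, fn y hy] at hxy
        exact Subtype.ext_iff.1 hxy
  refine ⟨fun i x y => L i (f x) (f y) ∧ ¬ (x = v ∧ y = u), fun i => ?_, ?_⟩
  · refine ⟨fun x => ⟨(hL i).refl _, ?_⟩, ?_, ?_, ?_, ?_⟩
    · rintro ⟨rfl, h⟩
      exact hvu h
    · rintro x y ⟨a1, a2⟩ ⟨b1, b2⟩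
      rcases feq x y ((hL i).antisymm _ _ a1 b1) with h | h | h
      · exact h
      · exact absurd h a2
      · exact absurd ⟨h.2, h.1⟩ b2
    · rintro x y z ⟨a1, a2⟩ ⟨b1, b2⟩
      refine ⟨(hL i).trans _ _ _ a1 b1, ?_⟩
      rintro ⟨rfl, rfl⟩
      have e1 : f x = f z := by rw [fu, fn x hvu]
      rw [← e1] at b1
      rcases feq x y ((hL i).antisymm _ _ a1 b1) with h | h | h
      · exact b2 ⟨h.symm, rfl⟩
      · exact a2 h
      · exact hvu h.1
    · intro x y
      rcases (hL i).total (f x) (f y) with h | h
      · by_cases hc : x = v ∧ y = u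
        · right
          obtain ⟨rfl, rfl⟩ := hc
          refine ⟨?_, fun hc => hvu hc.2⟩
          have e1 : f x = f y := by rw [fu, fn x hvu]
          rw [e1]
          exact (hL i).refl _
        · exact Or.inl ⟨h, hc⟩
      · by_cases hc : y = v ∧ x = u
        · left
          obtain ⟨rfl, rfl⟩ := hc
          refine ⟨?_, fun hc => hvu hc.2⟩
          have e1 : f y = f x := by rw [fu, fn y hvu]
          rw [e1]
          exact (hL i).refl _
        · exact Or.inr ⟨h, hc⟩
    · intro x y hxy
      refine ⟨(hL i).extend _ _ (fle x y hxy), ?_⟩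
      rintro ⟨rfl, rfl⟩
      exact absurd hxy (not_le_of_gt huv)
  · intro x y hxy
    have hf : f x ≤ f y := hI _ _ fun i => (hxy i).1
    have hn : ¬ (x = v ∧ y = u) := (hxy ⟨0, hk⟩).2
    by_cases hx : x = u
    · by_cases hy : y = u
      · rw [hx, hy]
      · subst hx
        rw [fu, fn y hy] at hf
        exact huv.le.trans hf
    · by_cases hy : y = u
      · subst hy
        rw [fu, fn x hx] at hf
        have hf' : x ≤ v := hf
        exact h2 x (lt_of_le_of_ne hf' fun e => hn ⟨e, rfl⟩)
      · rw [fn x hx, fn y hy] at hf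
        exact hf

/-- In an irreducible poset there is no such pair `u < v`, except for the two-element chain with the
convention `m = 0`. -/
lemma noTwins {P : Type} [PartialOrder P] {m : ℕ} (h : IsIrreducible m P) {u v : P} (huv : u < v)
    (h1 : ∀ c, u < c → v ≤ c) (h2 : ∀ c, c < v → c ≤ u) : m = 0 ∧ ∀ y, y = u ∨ y = v := by
  have hlt := h u
  have hP : {k | m ≤ k ∧ HasRealizer P k}.Nonempty := by
    by_contra hne
    rw [Set.not_nonempty_iff_eq_empty] at hne
    have h0 : dim m P = 0 := by unfold dim; rw [hne]; exact Nat.sInf_empty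
    omega
  obtain ⟨K, hK1, hK2⟩ := hP
  have hU : {k | m ≤ k ∧ HasRealizer {y : P // y ≠ u} k}.Nonempty := ⟨K, hK1, restrict hK2 u⟩
  obtain ⟨d1, d2⟩ := Nat.sInf_mem hU
  change m ≤ dim m {y : P // y ≠ u} at d1
  change HasRealizer {y : P // y ≠ u} (dim m {y : P // y ≠ u}) at d2
  rcases Nat.eq_zero_or_pos (dim m {y : P // y ≠ u}) with h0 | h0
  · refine ⟨by omega, fun y => ?_⟩
    rw [h0] at d2
    obtain ⟨L, -, hI⟩ := d2
    by_cases hy : y = u
    · exact Or.inl hy
    · right
      have hvu : v ≠ u := ne_of_gt huv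
      have e1 : (⟨y, hy⟩ : {y : P // y ≠ u}) ≤ ⟨v, hvu⟩ := hI _ _ fun i => i.elim0
      have e2 : (⟨v, hvu⟩ : {y : P // y ≠ u}) ≤ ⟨y, hy⟩ := hI _ _ fun i => i.elim0
      exact Subtype.ext_iff.1 (le_antisymm e1 e2)
  · exfalso
    have := insert huv h1 h2 d2 h0
    have hle : dim m P ≤ dim m {y : P // y ≠ u} := Nat.sInf_le ⟨d1, this⟩
    omega

/-- A meet-irreducible element of a finite poset is the first element of a critical pair, or it is
the lower element of a pair as in the preceding lemma. -/
lemma first {P : Type} [PartialOrder P] [Finite P] {a : P} (ha : MeetIrred a) :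
    (∃ b, Crit a b) ∨ ∃ v, a < v ∧ (∀ c, a < c → v ≤ c) ∧ ∀ c, c < v → c ≤ a := by
  by_cases hc : ∃ c, ¬ c ≤ a ∧ ¬ a ≤ c ∧ ∀ s, a < s → c ≤ s
  · left
    obtain ⟨c0, h1, h2, h3⟩ := hc
    obtain ⟨c, hcc, hm⟩ := (Set.toFinite {c : P | ¬ c ≤ a ∧ ∀ s, a < s → c ≤ s}).exists_le_minimal
      (show c0 ∈ {c : P | ¬ c ≤ a ∧ ∀ s, a < s → c ≤ s} from ⟨h1, h3⟩)
    have hac : ¬ a ≤ c := fun h => h2 (h.trans hcc)
    refine ⟨c, hac, hm.prop.1, fun s hs => lt_of_le_of_ne (hm.prop.2 s hs) ?_, fun d hd => ?_⟩
    · rintro rfl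
      exact hac hs.le
    · by_contra hda
      have hda' : ¬ d ≤ a := by
        intro h
        rcases h.lt_or_eq with h | h
        · exact hda h
        · exact hac (h ▸ hd.le)
      have := hm.le_of_le (show d ∈ {c : P | ¬ c ≤ a ∧ ∀ s, a < s → c ≤ s} from
        ⟨hda', fun s hs => hd.le.trans (hm.prop.2 s hs)⟩) hd.le
      exact absurd this (not_le_of_gt hd)
  · right
    have hg : ¬ IsGLB {s | a < s} a := fun h => lt_irrefl a (ha _ h)
    have hl : a ∈ lowerBounds {s | a < s} := fun s hs => le_of_lt hs
    have : ∃ c, (∀ s, a < s → c ≤ s) ∧ ¬ c ≤ a := by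
      by_contra hn
      push Not at hn
      exact hg ⟨hl, fun c hc => hn c fun s hs => hc hs⟩
    obtain ⟨c, h1, h2⟩ := this
    have hac : a ≤ c := by
      by_contra h
      exact hc ⟨c, h2, h, h1⟩
    have hlt : a < c := lt_of_le_of_ne hac fun e => h2 e.ge
    refine ⟨c, hlt, h1, fun d hd => ?_⟩
    by_contra hda
    have had : a ≤ d := by
      by_contra h
      exact hc ⟨d, hda, h, fun s hs => hd.le.trans (h1 s hs)⟩
    exact absurd (h1 d (lt_of_le_of_ne had fun e => hda e.ge)) (not_le_of_gt hd)

/-- The dual of the preceding lemma. -/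
lemma second {P : Type} [PartialOrder P] [Finite P] {a : P} (ha : JoinIrred a) :
    (∃ b, Crit b a) ∨ ∃ v, v < a ∧ (∀ c, v < c → a ≤ c) ∧ ∀ c, c < a → c ≤ v := by
  have ha' : MeetIrred (OrderDual.toDual a) := fun S hS => ha S hS
  rcases first ha' with ⟨b, h1, h2, h3, h4⟩ | ⟨v, h1, h2, h3⟩
  · exact Or.inl ⟨OrderDual.ofDual b, h1, h2, fun c hc => h4 c hc, fun c hc => h3 c hc⟩
  · exact Or.inr ⟨OrderDual.ofDual v, h1, fun c hc => h3 c hc, fun c hc => h2 c hc⟩

/-- In a finite irreducible poset `P` every doubly irreducible element is the first element of some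
critical pair and the second element of some critical pair. With the convention that realizers are
nonempty even every meet-irreducible element is the first element, and every join-irreducible
element the second element, of some critical pair. -/
theorem result (P : Type) [PartialOrder P] [Finite P] (m : ℕ) (h : IsIrreducible m P) :
    (∀ x : P, JoinIrred x → MeetIrred x → (∃ b, Crit x b) ∧ ∃ a, Crit a x) ∧
    (1 ≤ m → (∀ x : P, MeetIrred x → ∃ b, Crit x b) ∧ ∀ x : P, JoinIrred x → ∃ a, Crit a x) := by
  refine ⟨fun x hj hm => ⟨?_, ?_⟩, fun h1 => ⟨fun x hx => ?_, fun x hx => ?_⟩⟩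
  · rcases first hm with hb | ⟨v, e1, e2, e3⟩
    · exact hb
    · exfalso
      have hb := (noTwins h e1 e2 e3).2
      refine hj ∅ ⟨fun s hs => absurd hs (Set.notMem_empty s), fun c _ => ?_⟩
      rcases hb c with rfl | rfl
      · exact le_rfl
      · exact e1.le
  · rcases second hj with hb | ⟨v, e1, e2, e3⟩
    · exact hb
    · exfalso
      have hb := (noTwins h e1 e2 e3).2
      refine hm ∅ ⟨fun s hs => absurd hs (Set.notMem_empty s), fun c _ => ?_⟩
      rcases hb c with rfl | rfl
      · exact e1.le
      · exact le_rfl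
  · rcases first hx with hb | ⟨v, e1, e2, e3⟩
    · exact hb
    · have := (noTwins h e1 e2 e3).1
      omega
  · rcases second hx with hb | ⟨v, e1, e2, e3⟩
    · exact hb
    · have := (noTwins h e1 e2 e3).1
      omega

end Pool.Agent.Results.MP_ba261c_co.DoublyIrreducible
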